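import Mathlib
import Pool.Agent.H734R2.Defs
import Pool.Agent.H734R2.Grp
import Pool.Agent.H734R2.PropT
import Pool.Agent.H734R2.Haag
import Pool.Agent.H734R2.Embed

set_option autoImplicit false

open scoped Topology
open Filter

namespace Pool.Agent.Results.MP_02fda4_an.ExistentialT

open Pool.Agent.Helper278 Pool.Agent.H734R2
open Pool.Agent.Helper278.CE (sb)

/-- `N` is the group von Neumann algebra `L(G)` on the model `K` of `ℓ²(G)` with the basis `b`, with
the canonical trace `τ x = ⟨b₁, x b₁⟩` and the canonical unitaries `u g : b_h ↦ b_{gh}`. -/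
def IsGroupVN {G : Type} [Group G] {K : Type} [NormedAddCommGroup K] [InnerProductSpace ℂ K]
    [CompleteSpace K] (b : HilbertBasis G ℂ K) (N : VonNeumannAlgebra K) (τ : Elt N → ℂ)
    (u : G → Elt N) : Prop :=
  (∀ g h, (u g : K →L[ℂ] K) (b h) = b (g * h)) ∧
    N = vnGen (Set.range fun g => (u g : K →L[ℂ] K)) ∧
    ∀ x, τ x = inner ℂ (b 1) ((x : K →L[ℂ] K) (b 1))

/-- `H` is the union of an increasing sequence of finite subgroups. -/
def IsUnionOfFinite (H : Type) [Group H] : Prop :=
  ∃ F : ℕ → Subgroup H, Monotone F ∧ (∀ n, Finite (F n)) ∧ ∀ h, ∃ n, h ∈ F n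

/-- The homomorphism `i : H → G` of groups is existential for `U`: there is an injective
homomorphism of `G` in the ultrapower of `H` along `U` whose composition with `i` is the diagonal
embedding. -/
def IsExistentialGroup {H G : Type} [Group H] [Group G] (U : Ultrafilter ℕ) (i : H →* G) : Prop :=
  ∃ θ : G →* (U : Filter ℕ).Germ H, Function.Injective θ ∧
    ∀ h, θ (i h) = ((fun _ => h : ℕ → H) : (U : Filter ℕ).Germ H)

/-- There is an existential inclusion of groups `i : H → G` for which `N = L(H)` is a II₁ factor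
with the Haagerup property, `M = L(G)` is a II₁ factor with property (T), and the embedding `ι` of
`N` in `M` induced by `i` is existential. -/
theorem result : ∃ (H G : Type) (_ : Group H) (_ : Group G) (i : H →* G)
    (K : Type) (_ : NormedAddCommGroup K) (_ : InnerProductSpace ℂ K) (_ : CompleteSpace K)
    (b : HilbertBasis H ℂ K) (N : VonNeumannAlgebra K) (τ : Elt N → ℂ) (u : H → Elt N)
    (L : Type) (_ : NormedAddCommGroup L) (_ : InnerProductSpace ℂ L) (_ : CompleteSpace L)
    (c : HilbertBasis G ℂ L) (M : VonNeumannAlgebra L) (σ : Elt M → ℂ) (v : G → Elt M)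
    (ι : Elt N → Elt M),
    IsUnionOfFinite H ∧ IsKazhdan G ∧
    (∀ U : Ultrafilter ℕ, (∀ n, {n} ∉ U) → IsExistentialGroup U i) ∧
    IsGroupVN b N τ u ∧ IsGroupVN c M σ v ∧ (∀ h, ι (u h) = v (i h)) ∧
    IsIIOneFactor N τ ∧ HasHaagerupProperty N τ ∧
    IsIIOneFactor M σ ∧ HasPropertyT M ∧ IsEmbedding N M τ σ ι ∧
    ∀ U : Ultrafilter ℕ, (∀ n, {n} ∉ U) → IsExistential N M U τ σ ι := by
  obtain ⟨H, G, _, _, i, q, F, hi, hq1, hq2, hHinf, hGinf, hHicc, hGicc, hFm, hFf, hFe, hT⟩ :=
    Grp.exists_groups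
  obtain ⟨ι, hL, hι⟩ := exists_embed i hi
  have hle : ∀ U : Ultrafilter ℕ, (∀ n, {n} ∉ U) → (U : Filter ℕ) ≤ atTop :=
    fun U hU => Pool.Agent.Helper436.SM.ExM.j13735_le_atTop hU
  refine ⟨H, G, inferInstance, inferInstance, i, EllTwo H, inferInstance, inferInstance,
    inferInstance, sb H, LK (sb H), (RG.TL (sb H)).τ, RG.La (sb H), EllTwo G, inferInstance,
    inferInstance, inferInstance, sb G, LK (sb G), (RG.TL (sb G)).τ, RG.La (sb G), ι,
    ⟨F, hFm, hFf, hFe⟩, isKazhdan_of G hT, fun U hU => ?_, ⟨fun g h => lamK_basis (sb H) g h, rfl, fun x => rfl⟩,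
    ⟨fun g h => lamK_basis (sb G) g h, rfl, fun x => rfl⟩, hL,
    RG.isIIOne_LK (sb H) hHicc, haagerup_LK F hFm hFf hFe, RG.isIIOne_LK (sb G) hGicc,
    propertyT_LK (sb G) (isKazhdan_of G hT), hι, fun U hU => ?_⟩
  · refine ⟨{ toFun := fun g => ((fun n => q n g : ℕ → H) : (U : Filter ℕ).Germ H),
              map_one' := ?_, map_mul' := ?_ }, ?_, fun h => ?_⟩
    · refine Filter.Germ.coe_eq.2 (Eventually.of_forall fun n => ?_)
      show q n 1 = 1
      exact map_one _
    · intro g g'
      refine Filter.Germ.coe_eq.2 (Eventually.of_forall fun n => ?_)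
      show q n (g * g') = q n g * q n g'
      exact map_mul _ _ _
    · rw [injective_iff_map_eq_one]
      intro g hg
      by_contra hne
      have h1 : ∀ᶠ n in (U : Filter ℕ), q n g = 1 := Filter.Germ.coe_eq.1 hg
      have h2 := (hq2 g hne).filter_mono (hle U hU)
      obtain ⟨n, hn1, hn2⟩ := (h1.and h2).exists
      exact hn2 hn1
    · exact Filter.Germ.coe_eq.2 ((hq1 h).filter_mono (hle U hU))
  · exact isExistential_embed i hi ι hL hι.2.1 U hU q (fun h => (hq1 h).filter_mono (hle U hU))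
      (fun g hg => (hq2 g hg).filter_mono (hle U hU))

end Pool.Agent.Results.MP_02fda4_an.ExistentialT
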